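import Mathlib

namespace Pool.Agent.Results.MP_bb9d96_lc.ExponentialStep

open Filter

/-- The set of all bi-infinite sequences over `A` none of whose factors of length `n`
lies in `F` (words of length `n` are written as functions on `Fin n`). -/
def Avoid {A : Type} {n : ℕ} (F : Set (Fin n → A)) : Set (ℤ → A) :=
  {x | ∀ i : ℤ, (fun j : Fin n => x (i + (j : ℕ))) ∉ F}

/-- `X` is `M`-step: `X = X_F` for a set `F` of words all of length `M + 1`. -/
def IsStep {A : Type} (M : ℕ) (X : Set (ℤ → A)) : Prop :=
  ∃ F : Set (Fin (M + 1) → A), X = Avoid F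

/-- `X` is a shift of finite type. -/
def IsSFT {A : Type} (X : Set (ℤ → A)) : Prop := ∃ M, IsStep M X

/-- The minimum step of `X`. -/
noncomputable def minStep {A : Type} (X : Set (ℤ → A)) : ℕ := sInf {M | IsStep M X}

/-- A presentation over the alphabet `A`: a finite directed graph (multiple edges allowed)
with edges labelled in `A`. -/
structure Presentation (A : Type) where
  V : Type
  E : Type
  finV : Finite V
  finE : Finite E
  src : E → V
  tgt : E → V
  lab : E → A

/-- At every vertex and for every symbol at most one outgoing edge has that symbol. -/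
def Presentation.Deterministic {A : Type} (G : Presentation A) : Prop :=
  ∀ e e' : G.E, G.src e = G.src e' → G.lab e = G.lab e' → e = e'

/-- The shift space presented by `G`: label sequences of bi-infinite walks. -/
def Presentation.shift {A : Type} (G : Presentation A) : Set (ℤ → A) :=
  {x | ∃ e : ℤ → G.E, (∀ i, G.tgt (e i) = G.src (e (i + 1))) ∧ ∀ i, x i = G.lab (e i)}

/-- `s_d(X)`: the least number of vertices of a deterministic presentation of `X`. -/
noncomputable def sd {A : Type} (X : Set (ℤ → A)) : ℕ :=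
  sInf {n | ∃ G : Presentation A, G.Deterministic ∧ G.shift = X ∧ Nat.card G.V = n}

/-- letters: `none` is `#`, `some none` is `$`, `some (some l)` is the number `l` -/
abbrev Ltr (k : ℕ) : Type := Option (Option (Fin (2 ^ k - 1)))

/-- states: `none` is the final state, `some (i, some b)`: bit `i` has value `b`,
`some (i, none)`: bit `i` has seen an error -/
abbrev Sta (k : ℕ) : Type := Option (Fin k × Option Bool)

def step {k : ℕ} : Sta k → Ltr k → Option (Sta k)
  | none, some none => some none
  | none, _ => none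
  | some (i, _), none => some (some (i, some false))
  | some (_, none), some none => some none
  | some (_, some _), some none => none
  | some (i, none), some (some _) => some (some (i, none))
  | some (i, some b), some (some l) =>
      if Nat.testBit l i = b then some (some (i, some (Nat.testBit (l + 1) i)))
      else some (some (i, none))

/-- the deterministic presentation -/
def G (k : ℕ) : Presentation (Ltr k) where
  V := Sta k
  E := {p : Sta k × Ltr k × Sta k // step p.1 p.2.1 = some p.2.2}
  finV := inferInstance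
  finE := inferInstance
  src := fun e => e.1.1
  tgt := fun e => e.1.2.2
  lab := fun e => e.1.2.1

theorem G_det (k : ℕ) : (G k).Deterministic := by
  rintro ⟨⟨v, a, w⟩, h⟩ ⟨⟨v', a', w'⟩, h'⟩ h1 h2
  simp only [G] at h1 h2
  subst h1; subst h2
  simp only at h h'
  have : w = w' := by
    rw [h] at h'
    exact Option.some.inj h'
  subst this
  rfl

theorem mem_shift {k : ℕ} {x : ℤ → Ltr k} :
    x ∈ (G k).shift ↔ ∃ s : ℤ → Sta k, ∀ i, step (s i) (x i) = some (s (i + 1)) := by
  constructor
  · rintro ⟨e, h1, h2⟩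
    refine ⟨fun i => (e i).1.1, fun i => ?_⟩
    have h3 := (e i).2
    have h4 := h1 i
    have h5 := h2 i
    simp only [G] at h4 h5
    rw [h5, h3, h4]
  · rintro ⟨s, hs⟩
    exact ⟨fun i => ⟨(s i, x i, s (i + 1)), hs i⟩, fun i => rfl, fun i => rfl⟩

/-- bit `i` is tracked and has value `b` before position `n` -/
inductive Tr {k : ℕ} (x : ℤ → Ltr k) (i : Fin k) : ℤ → Bool → Prop
  | base (n : ℤ) (h : x n = none) : Tr x i (n + 1) false
  | next (n : ℤ) (b : Bool) (l : Fin (2 ^ k - 1)) (hb : Tr x i n b) (h : x n = some (some l))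
      (h2 : Nat.testBit l i = b) : Tr x i (n + 1) (Nat.testBit (l + 1) i)

theorem Tr.hash {k : ℕ} {x : ℤ → Ltr k} {i : Fin k} {n : ℤ} {b : Bool}
    (h : Tr x i (n + 1) b) (hn : x n = none) : b = false := by
  generalize hm : n + 1 = m at h
  cases h with
  | base n' h' => rfl
  | next n' b' l hb h' h2 =>
    have : n' = n := by omega
    subst this
    rw [hn] at h'
    exact absurd h' (by simp)

theorem Tr.num {k : ℕ} {x : ℤ → Ltr k} {i : Fin k} {n : ℤ} {b : Bool} {l : Fin (2 ^ k - 1)}
    (h : Tr x i (n + 1) b) (hn : x n = some (some l)) :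
    b = Nat.testBit (l + 1) i ∧ Tr x i n (Nat.testBit l i) := by
  generalize hm : n + 1 = m at h
  cases h with
  | base n' h' =>
    have : n' = n := by omega
    subst this
    rw [hn] at h'
    exact absurd h' (by simp)
  | next n' b' l' hb h' h2 =>
    have : n' = n := by omega
    subst this
    rw [hn] at h'
    have h3 : l = l' := by simpa using h'
    subst h3
    refine ⟨rfl, ?_⟩
    rw [h2]
    exact hb

theorem Tr.fun {k : ℕ} {x : ℤ → Ltr k} {i : Fin k} {n : ℤ} {b b' : Bool}
    (h : Tr x i n b) (h' : Tr x i n b') : b = b' := by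
  cases h with
  | base n hn => exact (h'.hash hn).symm
  | next n b l hb hn h2 => exact (h'.num hn).1.symm

open Classical in
/-- the walk of bit `i` -/
noncomputable def wk {k : ℕ} (x : ℤ → Ltr k) (i : Fin k) (n : ℤ) : Sta k :=
  if Tr x i n true then some (i, some true)
  else if Tr x i n false then some (i, some false) else some (i, none)

theorem wk_eq {k : ℕ} {x : ℤ → Ltr k} {i : Fin k} {n : ℤ} {b : Bool} (h : Tr x i n b) :
    wk x i n = some (i, some b) := by
  unfold wk
  cases b with
  | true => rw [if_pos h]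
  | false =>
    rw [if_neg, if_pos h]
    intro h'
    exact absurd (h.fun h') (by simp)

theorem wk_none {k : ℕ} {x : ℤ → Ltr k} {i : Fin k} {n : ℤ} (h : ∀ b, ¬ Tr x i n b) :
    wk x i n = some (i, none) := by
  unfold wk
  rw [if_neg (h _), if_neg (h _)]

theorem wk_step {k : ℕ} {x : ℤ → Ltr k} {i : Fin k} {n : ℤ} (h : x n ≠ some none) :
    step (wk x i n) (x n) = some (wk x i (n + 1)) := by
  rcases hx : x n with _ | _ | l
  · rw [wk_eq (Tr.base n hx)]
    by_cases h1 : ∃ b, Tr x i n b
    · obtain ⟨b, hb⟩ := h1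
      rw [wk_eq hb]; rfl
    · push Not at h1
      rw [wk_none h1]; rfl
  · exact absurd hx h
  · by_cases h1 : ∃ b, Tr x i n b
    · obtain ⟨b, hb⟩ := h1
      rw [wk_eq hb]
      by_cases h2 : Nat.testBit l i = b
      · rw [wk_eq (Tr.next n b l hb hx h2)]
        simp [step, h2]
      · rw [wk_none (n := n + 1)]
        · simp [step, h2]
        · intro b' hb'
          exact h2 ((hb'.num hx).2.fun hb)
    · push Not at h1
      rw [wk_none h1, wk_none]
      · rfl
      · intro b' hb'
        exact h1 _ (hb'.num hx).2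

/-- sequences without `$` belong to the shift -/
theorem mem_of_no {k : ℕ} (hk : 0 < k) {x : ℤ → Ltr k} (h : ∀ n, x n ≠ some none) :
    x ∈ (G k).shift :=
  mem_shift.2 ⟨wk x ⟨0, hk⟩, fun n => wk_step (h n)⟩

theorem mem_of_first {k : ℕ} {x : ℤ → Ltr k} {n₀ : ℤ} (h1 : ∀ n < n₀, x n ≠ some none)
    (h2 : ∀ n, n₀ ≤ n → x n = some none) {i : Fin k} (h3 : ∀ b, ¬ Tr x i n₀ b) :
    x ∈ (G k).shift := by
  refine mem_shift.2 ⟨fun n => if n ≤ n₀ then wk x i n else none, fun n => ?_⟩
  beta_reduce
  rcases lt_trichotomy n n₀ with h | h | h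
  · rw [if_pos h.le, if_pos (by omega)]
    exact wk_step (h1 n h)
  · subst h
    rw [if_pos le_rfl, if_neg (by omega), wk_none h3, h2 n le_rfl]
    rfl
  · rw [if_neg (by omega), if_neg (by omega), h2 n h.le]
    rfl

theorem eq_of_bits {k : ℕ} {s : ℕ} {l : ℕ} (hs : s < 2 ^ k) (hl : l < 2 ^ k)
    (h : ∀ i : Fin k, Nat.testBit s i = Nat.testBit l i) : s = l := by
  apply Nat.eq_of_testBit_eq
  intro i
  by_cases hi : i < k
  · exact h ⟨i, hi⟩
  · rw [Nat.testBit_lt_two_pow (lt_of_lt_of_le hs (Nat.pow_le_pow_right (by norm_num) (by omega))),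
      Nat.testBit_lt_two_pow (lt_of_lt_of_le hl (Nat.pow_le_pow_right (by norm_num) (by omega)))]

/-- if all bits are tracked then the last `#` is followed by `0, 1, ..., s - 1` -/
theorem chain {k : ℕ} {x : ℤ → Ltr k} {i : Fin k} {n : ℤ} {b : Bool} (h : Tr x i n b) :
    (∀ i, ∃ b, Tr x i n b) → ∃ s : ℕ, s < 2 ^ k ∧ x (n - 1 - s) = none ∧
      (∀ j : ℕ, j < s → ∃ l : Fin (2 ^ k - 1), (l : ℕ) = j ∧ x (n - s + j) = some (some l)) ∧
      ∀ i, Tr x i n (Nat.testBit s i) := by
  induction h with
  | base n hn =>
    intro _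
    refine ⟨0, by positivity, by simpa using hn, fun j hj => absurd hj (by omega), fun i => ?_⟩
    simpa using Tr.base n hn
  | next n b l hb hn h2 ih =>
    intro hall
    have h3 : ∀ i, Tr x i n (Nat.testBit l i) := fun i => by
      obtain ⟨b', hb'⟩ := hall i
      exact (hb'.num hn).2
    obtain ⟨s, hs, hs1, hs2, hs3⟩ := ih (fun i => ⟨_, h3 i⟩)
    have hsl : s = l := by
      refine eq_of_bits hs ?_ (fun i => (hs3 i).fun (h3 i))
      have := l.2
      omega
    have hl := l.2
    refine ⟨s + 1, by omega, ?_, ?_, ?_⟩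
    · have : n + 1 - 1 - ((s + 1 : ℕ) : ℤ) = n - 1 - s := by push_cast; ring
      rw [this]; exact hs1
    · intro j hj
      have e1 : n + 1 - ((s + 1 : ℕ) : ℤ) + j = n - s + j := by push_cast; ring
      rw [e1]
      rcases Nat.lt_succ_iff_lt_or_eq.1 hj with h | h
      · exact hs2 j h
      · subst h
        refine ⟨l, hsl.symm, ?_⟩
        have : n - (j : ℤ) + j = n := by ring
        rw [this]; exact hn
    · intro i
      rw [hsl]
      exact Tr.next n _ l (h3 i) hn rfl

/-- reading `#, 0, ..., s-1` leads to a state `some (i, some (bit i of s))` -/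
theorem read_valid {k : ℕ} {s : ℕ} {w : ℕ → Ltr k} {st : ℕ → Sta k} (h0 : w 0 = none)
    (hw : ∀ j : ℕ, j < s → ∃ l : Fin (2 ^ k - 1), (l : ℕ) = j ∧ w (j + 1) = some (some l))
    (hst : ∀ j, j ≤ s → step (st j) (w j) = some (st (j + 1))) :
    ∃ i : Fin k, ∀ j, j ≤ s → st (j + 1) = some (i, some (Nat.testBit j i)) := by
  have h1 := hst 0 (by omega)
  rw [h0] at h1
  rcases hs : st 0 with _ | ⟨i, o⟩
  · rw [hs] at h1
    simp [step] at h1
  · rw [hs] at h1
    simp only [step, Option.some.injEq] at h1
    refine ⟨i, fun j => ?_⟩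
    induction j with
    | zero => intro _; simp [← h1]
    | succ j ih =>
      intro hj
      have h2 := ih (by omega)
      obtain ⟨l, hl, hl2⟩ := hw j (by omega)
      have h3 := hst (j + 1) hj
      rw [h2, hl2] at h3
      simp only [step, hl, if_true, Option.some.injEq] at h3
      exact h3.symm

theorem not_readable {k : ℕ} {s : ℕ} {w : ℕ → Ltr k} {st : ℕ → Sta k} (h0 : w 0 = none)
    (hw : ∀ j : ℕ, j < s → ∃ l : Fin (2 ^ k - 1), (l : ℕ) = j ∧ w (j + 1) = some (some l))
    (hd : w (s + 1) = some none)
    (hst : ∀ j, j ≤ s + 1 → step (st j) (w j) = some (st (j + 1))) : False := by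
  obtain ⟨i, hi⟩ := read_valid h0 hw (fun j hj => hst j (by omega))
  have h1 := hst (s + 1) le_rfl
  rw [hi s le_rfl, hd] at h1
  simp [step] at h1

theorem two_pow_pos' (k : ℕ) : 0 < 2 ^ k := by positivity

/-- the shift is `2 ^ k`-step -/
theorem isStep (k : ℕ) (hk : 0 < k) : IsStep (2 ^ k) (G k).shift := by
  refine ⟨{w | ¬ ∃ st : ℕ → Sta k, ∀ j : Fin (2 ^ k + 1), step (st j) (w j) = some (st (j + 1))},
    ?_⟩
  apply Set.eq_of_subset_of_subset
  · intro x hx i hw
    obtain ⟨s, hs⟩ := mem_shift.1 hx
    refine hw ⟨fun j => s (i + j), fun j => ?_⟩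
    have := hs (i + (j : ℕ))
    rw [this]
    congr 2
    push_cast
    ring
  · intro x hx
    have hwin : ∀ i : ℤ, ∃ st : ℕ → Sta k, ∀ j : ℕ, j ≤ 2 ^ k →
        step (st j) (x (i + j)) = some (st (j + 1)) := by
      intro i
      have := hx i
      simp only [Set.mem_ofPred_eq, not_not] at this
      obtain ⟨st, hst⟩ := this
      exact ⟨st, fun j hj => hst ⟨j, by omega⟩⟩
    have hpos : 1 ≤ 2 ^ k := two_pow_pos' k
    -- after `$` comes `$`
    have hnext : ∀ n, x n = some none → x (n + 1) = some none := by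
      intro n hn
      obtain ⟨st, hst⟩ := hwin n
      have h0 := hst 0 (by omega)
      have h1 := hst 1 (by omega)
      simp only [Nat.cast_zero, add_zero, hn, zero_add] at h0
      have h2 : st 1 = none := by
        rcases hs : st 0 with _ | ⟨i, _ | b⟩
        · rw [hs] at h0; simpa [step] using h0.symm
        · rw [hs] at h0; simpa [step] using h0.symm
        · rw [hs] at h0; simp [step] at h0
      rw [h2] at h1
      simp only [Nat.cast_one] at h1
      rcases hx1 : x (n + 1) with _ | _ | l
      · rw [hx1] at h1; simp [step] at h1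
      · rfl
      · rw [hx1] at h1; simp [step] at h1
    have hnext' : ∀ n, x n = some none → ∀ m, n ≤ m → x m = some none := by
      intro n hn m hm
      obtain ⟨d, rfl⟩ : ∃ d : ℕ, m = n + d := ⟨(m - n).toNat, by omega⟩
      clear hm
      induction d with
      | zero => simpa using hn
      | succ d ih =>
        have := hnext _ ih
        rw [show n + ((d + 1 : ℕ) : ℤ) = n + d + 1 by push_cast; ring]
        exact this
    by_cases h1 : ∃ n, x n = some none
    · by_cases h2 : ∃ n, x n ≠ some none
      · -- there is a first `$`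
        obtain ⟨a, ha⟩ := h1
        obtain ⟨c, hc⟩ := h2
        have hca : c < a := by
          by_contra hh
          exact hc (hnext' a ha c (by omega))
        obtain ⟨n₀, hn₀, hleast⟩ := Int.exists_least_of_bdd (P := fun n => x n = some none)
          ⟨c, fun z hz => by
            by_contra hh
            exact hc (hnext' z hz c (by omega))⟩ ⟨a, ha⟩
        by_cases h3 : ∃ i : Fin k, ∀ b, ¬ Tr x i n₀ b
        · obtain ⟨i, hi⟩ := h3
          refine mem_of_first (n₀ := n₀) (fun n hn hx' => ?_) (hnext' n₀ hn₀) hi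
          have := hleast n hx'
          omega
        · push Not at h3
          exfalso
          obtain ⟨b, hb⟩ := h3 ⟨0, hk⟩
          obtain ⟨s, hs, hs1, hs2, -⟩ := chain hb h3
          obtain ⟨st, hst⟩ := hwin (n₀ - 1 - s)
          refine not_readable (s := s) (w := fun j => x (n₀ - 1 - s + j)) (st := st) ?_ ?_ ?_ ?_
          · simpa using hs1
          · intro j hj
            obtain ⟨l, hl, hl2⟩ := hs2 j hj
            refine ⟨l, hl, ?_⟩
            rw [← hl2]
            congr 1
            push_cast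
            ring
          · rw [← hn₀]
            congr 1
            push_cast
            ring
          · intro j hj
            exact hst j (by omega)
      · push Not at h2
        exact mem_shift.2 ⟨fun _ => none, fun i => by rw [h2 i]; rfl⟩
    · push Not at h1
      exact mem_of_no hk h1

/-- the number letter `l` (used only for `l < 2 ^ k - 1`) -/
def nm (k : ℕ) (l : ℕ) : Ltr k := if h : l < 2 ^ k - 1 then some (some ⟨l, h⟩) else none

theorem nm_eq {k l : ℕ} (h : l < 2 ^ k - 1) : nm k l = some (some ⟨l, h⟩) := by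
  unfold nm; rw [dif_pos h]

theorem nm_ne {k l : ℕ} : nm k l ≠ some none := by
  unfold nm; split_ifs <;> simp

theorem not_isStep (k : ℕ) (hk : 0 < k) {M : ℕ} (hM : M + 1 ≤ 2 ^ k) :
    ¬ IsStep M (G k).shift := by
  rintro ⟨F, hF⟩
  have hk2 : 2 ≤ 2 ^ k := by
    calc 2 = 2 ^ 1 := by norm_num
      _ ≤ 2 ^ k := Nat.pow_le_pow_right (by norm_num) hk
  set K : ℤ := ((2 ^ k : ℕ) : ℤ) with hK
  have hK2 : 2 ≤ K := by rw [hK]; exact_mod_cast hk2
  let x : ℤ → Ltr k := fun n => if n ≤ 0 then none else if n < K then nm k (n - 1).toNat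
    else some none
  let x1 : ℤ → Ltr k := fun n => if n ≤ 0 then none else if n < K then nm k (n - 1).toNat
    else none
  let x2 : ℤ → Ltr k := fun n => if n ≤ 0 then nm k 0 else if n < K then nm k (n - 1).toNat
    else some none
  have h1 : x1 ∈ (G k).shift := by
    refine mem_of_no hk (fun n => ?_)
    simp only [x1]
    split_ifs
    · simp
    · exact nm_ne
    · simp
  have h2 : x2 ∈ (G k).shift := by
    refine mem_shift.2 ⟨fun n => if n ≤ K then some (⟨0, hk⟩, none) else none, fun n => ?_⟩
    beta_reduce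
    rcases lt_trichotomy n K with h | h | h
    · rw [if_pos h.le, if_pos (by omega)]
      simp only [x2]
      by_cases hn : n ≤ 0
      · rw [if_pos hn, nm_eq (by omega)]; rfl
      · rw [if_neg hn, if_pos h, nm_eq (by omega)]; rfl
    · rw [if_pos h.le, if_neg (by omega)]
      simp only [x2]
      rw [if_neg (by omega), if_neg (by omega)]; rfl
    · rw [if_neg (by omega), if_neg (by omega)]
      simp only [x2]
      rw [if_neg (by omega), if_neg (by omega)]; rfl
  have h3 : x ∉ (G k).shift := by
    intro hx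
    obtain ⟨s, hs⟩ := mem_shift.1 hx
    refine not_readable (s := 2 ^ k - 1) (w := fun j => x j) (st := fun j => s j) ?_ ?_ ?_ ?_
    · simp [x]
    · intro j hj
      refine ⟨⟨j, hj⟩, rfl, ?_⟩
      simp only [x]
      rw [if_neg (by push_cast; omega), if_pos (by push_cast; omega),
        show (((j + 1 : ℕ) : ℤ) - 1).toNat = j by push_cast; omega, nm_eq hj]
    · simp only [x]
      rw [if_neg (by push_cast; omega), if_neg]
      have : 2 ^ k - 1 + 1 = 2 ^ k := by omega
      rw [this, ← hK]
      omega
    · intro j _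
      have := hs j
      simpa using this
  apply h3
  rw [hF]
  intro i hi
  by_cases h : 1 ≤ i
  · rw [hF] at h2
    apply h2 i
    convert hi using 1
    funext j
    have hj : (0 : ℤ) ≤ ((j : ℕ) : ℤ) := by positivity
    have h5 : ¬ (i + ((j : ℕ) : ℤ) ≤ 0) := by omega
    simp only [x, x2, h5, if_false]
  · rw [hF] at h1
    apply h1 i
    convert hi using 1
    funext j
    have hj : ((j : ℕ) : ℤ) < M + 1 := by exact_mod_cast j.2
    have hM' : (M : ℤ) + 1 ≤ K := by rw [hK]; exact_mod_cast hM
    simp only [x, x1]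
    by_cases h4 : i + ((j : ℕ) : ℤ) ≤ 0
    · rw [if_pos h4, if_pos h4]
    · rw [if_neg h4, if_neg h4, if_pos (by omega), if_pos (by omega)]

theorem le_minStep (k : ℕ) (hk : 0 < k) : 2 ^ k ≤ minStep (G k).shift := by
  have h1 : IsStep (minStep (G k).shift) (G k).shift :=
    Nat.sInf_mem (s := {M | IsStep M (G k).shift}) ⟨2 ^ k, isStep k hk⟩
  by_contra h
  exact not_isStep k hk (by omega) h1

theorem card_Sta (k : ℕ) : Nat.card (Sta k) = 3 * k + 1 := by
  simp [Nat.card_eq_fintype_card, Fintype.card_option, Fintype.card_prod]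
  ring

theorem sd_le (k : ℕ) : sd (G k).shift ≤ 3 * k + 1 :=
  Nat.sInf_le ⟨G k, G_det k, rfl, card_Sta k⟩

/-- the sequence `...# # 0 1 ... (m-1) l $ $ ...` with `l` at position `0` -/
def y (k : ℕ) (m l : ℕ) : ℤ → Ltr k := fun n =>
  if n < -m then none else if n < 0 then nm k (n + m).toNat else if n = 0 then nm k l
    else some none

theorem y_mem (k : ℕ) (hk : 0 < k) {m l : ℕ} (hm : m < 2 ^ k) (hl : l < m) :
    y k m l ∈ (G k).shift := by
  by_cases h3 : ∃ i : Fin k, ∀ b, ¬ Tr (y k m l) i 1 b
  · obtain ⟨i, hi⟩ := h3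
    refine mem_of_first (n₀ := 1) (fun n hn => ?_) (fun n hn => ?_) hi
    · simp only [y]
      split_ifs
      · simp
      · exact nm_ne
      · exact nm_ne
      · omega
    · simp only [y]
      rw [if_neg (by omega), if_neg (by omega), if_neg (by omega)]
  · push Not at h3
    exfalso
    obtain ⟨b, hb⟩ := h3 ⟨0, hk⟩
    obtain ⟨s, hs, hs1, hs2, -⟩ := chain hb h3
    have hl' : l < 2 ^ k - 1 := by omega
    have h0 : y k m l 0 = some (some ⟨l, hl'⟩) := by
      unfold y
      rw [if_neg (by omega), if_neg (by omega), if_pos rfl, nm_eq hl']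
    rcases Nat.eq_zero_or_pos s with h | h
    · subst h
      norm_num at hs1
      rw [h0] at hs1
      exact absurd hs1 (by simp)
    · obtain ⟨l', hl1, hl2⟩ := hs2 (s - 1) (by omega)
      rw [show (1 : ℤ) - s + ((s - 1 : ℕ) : ℤ) = 0 by push_cast [h]; omega, h0] at hl2
      have h5 : l = (l' : ℕ) := by
        have : (⟨l, hl'⟩ : Fin (2 ^ k - 1)) = l' := by simpa using hl2
        rw [← this]
      have h6 : s = l + 1 := by omega
      simp only [y] at hs1
      rw [if_neg (by omega), if_pos (by omega), nm_eq (by omega)] at hs1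
      exact absurd hs1 (by simp)

theorem card_ge (k : ℕ) (hk : 0 < k) (H : Presentation (Ltr k)) (hH : H.shift = (G k).shift) :
    k ≤ Nat.card H.V := by
  have := H.finV
  let S : Fin (2 ^ k) → Set H.V := fun m =>
    {v | ∃ e : ℤ → H.E, (∀ i, H.tgt (e i) = H.src (e (i + 1))) ∧ H.src (e 0) = v ∧
      H.lab (e (-1 - (m : ℕ))) = none ∧ ∀ j : ℕ, j < m → H.lab (e (-(m : ℕ) + j)) = nm k j}
  have key : ∀ m m' : Fin (2 ^ k), m < m' → S m ≠ S m' := by
    intro m m' hmm hS
    have hmm' : (m : ℕ) < (m' : ℕ) := hmm
    have hm' := m'.2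
    have hy := y_mem k hk m'.2 hmm'
    rw [← hH] at hy
    obtain ⟨e, he1, he2⟩ := hy
    have h1 : H.src (e 0) ∈ S m' := by
      refine ⟨e, he1, rfl, ?_, ?_⟩
      · rw [← he2]
        simp only [y]
        rw [if_pos (by omega)]
      · intro j hj
        rw [← he2]
        simp only [y]
        rw [if_neg (by omega), if_pos (by omega)]
        congr 1
        omega
    rw [← hS] at h1
    obtain ⟨e', he1', he2', he3', he4'⟩ := h1
    let z : ℤ → H.E := fun n => if n < 0 then e' n else e n
    have hz : (fun n => H.lab (z n)) ∈ (G k).shift := by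
      rw [← hH]
      refine ⟨z, fun i => ?_, fun i => rfl⟩
      simp only [z]
      rcases lt_trichotomy i (-1) with h | h | h
      · rw [if_pos (by omega), if_pos (by omega)]
        exact he1' i
      · subst h
        rw [if_pos (by omega), if_neg (by omega)]
        have := he1' (-1)
        norm_num at this ⊢
        rw [this, he2']
      · rw [if_neg (by omega), if_neg (by omega)]
        exact he1 i
    obtain ⟨s, hs⟩ := mem_shift.1 hz
    refine not_readable (s := (m : ℕ) + 1) (w := fun j => H.lab (z (-1 - (m : ℕ) + j)))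
      (st := fun j => s (-1 - (m : ℕ) + j)) ?_ ?_ ?_ ?_
    · simp only [z, Nat.cast_zero, add_zero]
      rw [if_pos (by omega)]
      exact he3'
    · intro j hj
      have hjk : j < 2 ^ k - 1 := by omega
      refine ⟨⟨j, hjk⟩, rfl, ?_⟩
      rw [← nm_eq hjk]
      simp only [z]
      by_cases hjm : j < m
      · rw [if_pos (by push_cast; omega)]
        rw [← he4' j hjm]
        congr 2
        push_cast
        ring
      · have hjm' : j = m := by omega
        rw [if_neg (by push_cast; omega), ← he2]
        simp only [y]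
        rw [if_neg (by push_cast; omega), if_neg (by push_cast; omega),
          if_pos (by push_cast; omega), hjm']
    · simp only [z]
      rw [if_neg (by push_cast; omega), ← he2]
      simp only [y]
      rw [if_neg (by push_cast; omega), if_neg (by push_cast; omega),
        if_neg (by push_cast; omega)]
    · intro j _
      have := hs (-1 - (m : ℕ) + j)
      rw [this]
      congr 2
      push_cast
      ring
  have hinj : Function.Injective S := by
    intro m m' h
    rcases lt_trichotomy m m' with h1 | h1 | h1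
    · exact absurd h (key m m' h1)
    · exact h1
    · exact absurd h.symm (key m' m h1)
  have h2 := Nat.card_le_card_of_injective S hinj
  classical
  have := Fintype.ofFinite H.V
  rw [Nat.card_eq_fintype_card, Nat.card_eq_fintype_card, Fintype.card_fin, Fintype.card_set] at h2
  rw [Nat.card_eq_fintype_card]
  exact (Nat.pow_le_pow_iff_right (by norm_num)).1 h2

theorem le_sd (k : ℕ) (hk : 0 < k) : k ≤ sd (G k).shift := by
  have hne : {n | ∃ H : Presentation (Ltr k), H.Deterministic ∧ H.shift = (G k).shift ∧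
      Nat.card H.V = n}.Nonempty := ⟨3 * k + 1, G k, G_det k, rfl, card_Sta k⟩
  obtain ⟨H, -, hH, hc⟩ := Nat.sInf_mem hne
  have := card_ge k hk H hH
  unfold sd
  omega

/-- Q1: the bound is tight. -/
theorem result :
    ∃ c : ℝ, 0 < c ∧ ∃ (A : ℕ → Type) (X : ∀ k, Set (ℤ → A k)),
      (∀ k, Finite (A k)) ∧ (∀ k, IsSFT (X k)) ∧
      (∀ k, ∃ H : Presentation (A k), H.Deterministic ∧ H.shift = X k) ∧
      Tendsto (fun k => sd (X k)) atTop atTop ∧
      ∀ k, (2 : ℝ) ^ (c * (sd (X k) : ℝ)) ≤ (minStep (X k) : ℝ) := by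
  refine ⟨1 / 4, by norm_num, fun k => Ltr (k + 1), fun k => (G (k + 1)).shift,
    fun k => inferInstance, fun k => ⟨_, isStep (k + 1) (by omega)⟩,
    fun k => ⟨G (k + 1), G_det _, rfl⟩, ?_, fun k => ?_⟩
  · refine tendsto_atTop_mono (fun k => ?_) tendsto_id
    have := le_sd (k + 1) (by omega)
    simp only [id]
    omega
  · have h1 := sd_le (k + 1)
    have h2 := le_minStep (k + 1) (by omega)
    have h3 : (sd (G (k + 1)).shift : ℝ) ≤ 3 * (k + 1) + 1 := by exact_mod_cast h1
    calc (2 : ℝ) ^ (1 / 4 * (sd (G (k + 1)).shift : ℝ)) ≤ (2 : ℝ) ^ (((k + 1 : ℕ) : ℝ)) := by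
          apply Real.rpow_le_rpow_of_exponent_le (by norm_num)
          push_cast
          nlinarith [Nat.cast_nonneg (α := ℝ) k]
      _ = ((2 ^ (k + 1) : ℕ) : ℝ) := by
          rw [Real.rpow_natCast]; push_cast; ring
      _ ≤ _ := by exact_mod_cast h2

end Pool.Agent.Results.MP_bb9d96_lc.ExponentialStep
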